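import Mathlib

/-!
# Project RD: dimension of random graph orders (frozen statement S19329)
Definitions and exact statements of all parts.
-/

set_option autoImplicit false

namespace Pool.Agent.W830.RD

open Finset Filter Topology
open scoped Classical

noncomputable section

/-! ## Order part -/

/-- `x` and `y` are incomparable. -/
def Inc {α : Type} [PartialOrder α] (x y : α) : Prop := ¬ x ≤ y ∧ ¬ y ≤ x

/-- A realiser with `k` linear extensions, given by injective functions to `ℕ`. -/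
def Rlz {α : Type} (le : α → α → Prop) (k : ℕ) : Prop :=
  ∃ f : Fin k → α → ℕ, (∀ i, Function.Injective (f i)) ∧ ∀ x y, (le x y ↔ ∀ i, f i x ≤ f i y)

/-- A finite chain. -/
def Chn {α : Type} [PartialOrder α] (C : Finset α) : Prop := ∀ x ∈ C, ∀ y ∈ C, x ≤ y ∨ y ≤ x

/-- A finite antichain. -/
def Anti {α : Type} [PartialOrder α] (A : Finset α) : Prop := ∀ x ∈ A, ∀ y ∈ A, x ≤ y → x = y

/-- `D` is a lower set, `U` an upper set, they are disjoint and the rest is an antichain. -/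
structure Split {α : Type} [PartialOrder α] (D U : Finset α) : Prop where
  lo : ∀ x y : α, x ≤ y → y ∈ D → x ∈ D
  up : ∀ x y : α, x ≤ y → x ∈ U → y ∈ U
  dj : Disjoint D U
  mid : ∀ a b : α, a ∉ D → a ∉ U → b ∉ D → b ∉ U → a ≤ b → a = b

/-- A pair (chain below, chain above) is mixed if some element of the first is below some element
of the second. -/
def Mixed {α : Type} [PartialOrder α] (p : Finset α × Finset α) : Prop :=
  ∃ d ∈ p.1, ∃ u ∈ p.2, d ≤ u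

/-- A pair with at most one element altogether. -/
def Small {α : Type} (p : Finset α × Finset α) : Prop := p.1.card + p.2.card ≤ 1

/-- A scheme with `N` slots for the lower part `D` and the upper part `U`. -/
def Sch {α : Type} [PartialOrder α] (N : ℕ) (D U : Finset α) : Prop :=
  ∃ (L : Multiset (Finset α × Finset α)) (X Y : Finset α),
    L.card ≤ N ∧
    (∀ p ∈ L, p.1 ⊆ D ∧ p.2 ⊆ U ∧ Chn p.1 ∧ Chn p.2) ∧
    (∀ x ∈ D, ∃ p ∈ L, x ∈ p.1) ∧ (∀ x ∈ U, ∃ p ∈ L, x ∈ p.2) ∧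
    (∀ x ∈ X, ∀ y ∈ Y, x ≤ y) ∧
    (∀ p ∈ L, ∀ d ∈ p.1, ∀ u ∈ p.2, d ≤ u → d ∈ X ∧ u ∈ Y) ∧
    L.countP Mixed ≤ L.countP Small

/-- PAIR: the two linear extensions attached to a mixed slot and its helper slot. -/
def S_PAIR : Prop := ∀ (α : Type) [Fintype α] [PartialOrder α] (D U C C' : Finset α) (H : α → Prop),
  Split D U → C ⊆ D → C' ⊆ U → Chn C → Chn C' → (∀ x y, x ≤ y → H x → H y) →
  ∃ f g : α → ℕ, Function.Injective f ∧ Function.Injective g ∧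
    (∀ x y, x ≤ y → f x ≤ f y) ∧ (∀ x y, x ≤ y → g x ≤ g y) ∧
    (∀ x y, H x → ¬ H y → f y < f x) ∧
    (∀ t ∈ C, ∀ y, Inc t y → y ∉ U → f y < f t ∨ g y < g t) ∧
    (∀ t ∈ C, (∀ u ∈ C', ¬ t ≤ u) → ∀ y, Inc t y → g y < g t) ∧
    (∀ s ∈ C', ∀ y, Inc s y → y ∉ D → f s < f y ∨ g s < g y) ∧
    (∀ s ∈ C', (∀ d ∈ C, ¬ d ≤ s) → ∀ y, Inc s y → g s < g y)

/-- SLOTS: a scheme with `N` slots gives a realiser with `N + 2` linear extensions. -/
def S_SLOTS : Prop := ∀ (α : Type) [Fintype α] [PartialOrder α] (N : ℕ) (D U : Finset α),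
  Split D U → Sch N D U → Rlz (fun x y : α => x ≤ y) (N + 2)

/-- SADD: add one slot whose two chains are completely incomparable. -/
def S_SADD : Prop := ∀ (α : Type) [PartialOrder α] (N : ℕ) (D U C C' : Finset α),
  Sch N D U → Chn C → Chn C' → (∀ d ∈ C, ∀ u ∈ C', ¬ d ≤ u) → Sch (N + 1) (D ∪ C) (U ∪ C')

/-- DUAL: schemes are preserved by reversing the order and exchanging the two parts. -/
def S_DUAL : Prop := ∀ (α : Type) [PartialOrder α] (N : ℕ) (D U : Finset α),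
  @Sch αᵒᵈ _ N U D → Sch N D U

/-! ## Combinatorial part -/

/-- KONIG: matching number equals vertex cover number. -/
def S_KONIG : Prop := ∀ (α β : Type) (S : Finset α) (T : Finset β) (r : α → β → Prop),
  ∃ (I : Finset α) (m : α → β) (A : Finset α) (B : Finset β),
    I ⊆ S ∧ (∀ a ∈ I, m a ∈ T ∧ r a (m a)) ∧ (∀ a ∈ I, ∀ a' ∈ I, m a = m a' → a = a') ∧
    A ⊆ S ∧ B ⊆ T ∧ (∀ a ∈ S, ∀ b ∈ T, r a b → a ∈ A ∨ b ∈ B) ∧ A.card + B.card ≤ I.card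

/-- ROUNDS: Hall elimination. -/
def S_ROUNDS : Prop := ∀ (α : Type) [PartialOrder α] (S : Finset α) (J : Finset (Finset α))
  (l : Finset α → ℕ), (∀ C ∈ J, Chn C) →
  (∀ C ∈ J, ∀ x ∈ S, (C.filter (fun y => ¬ x ≤ y)).card ≤ l C) →
  ∃ E ⊆ S, E.card ≤ (∑ C ∈ J, l C) - 1 ∧ ∃ φ : Finset α → α,
    (∀ C ∈ J, (∀ x ∈ S \ E, ∀ y ∈ C, x ≤ y) ∨
      (φ C ∈ S \ E ∧ ∀ x ∈ S \ E, ∀ y ∈ C, φ C ≤ y → x ≤ y)) ∧
    (∀ C ∈ J, ∀ C' ∈ J, ¬ (∀ x ∈ S \ E, ∀ y ∈ C, x ≤ y) → ¬ (∀ x ∈ S \ E, ∀ y ∈ C', x ≤ y) →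
      φ C = φ C' → C = C')

/-- ELIM: final form of the elimination. -/
def S_ELIM : Prop := ∀ (α : Type) [PartialOrder α] (S : Finset α) (J : Finset (Finset α)) (k : ℕ)
  (l : Finset α → ℕ), (∀ C ∈ J, Chn C) →
  (∀ C ∈ J, ∀ x ∈ S, (C.filter (fun y => ¬ x ≤ y)).card ≤ l C) →
  J.card ≤ k → k + ((∑ C ∈ J, l C) - 1) ≤ S.card →
  ∃ X ⊆ S, X.card = k ∧ ∃ φ : Finset α → α, (∀ C ∈ J, φ C ∈ X) ∧
    (∀ C ∈ J, ∀ C' ∈ J, φ C = φ C' → C = C') ∧ ∀ C ∈ J, ∀ x ∈ X, ∀ y ∈ C, φ C ≤ y → x ≤ y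

/-- The union of the singles `S` and the chains in `P`. -/
def DD {α : Type} (S : Finset α) (P : Finset (Finset α)) : Finset α := S ∪ P.biUnion id

/-- ASM: assembly of the slots in the direction where elements of `S` are merged with chains
above. -/
def S_ASM : Prop := ∀ (α : Type) [PartialOrder α] (S T : Finset α) (P Q J : Finset (Finset α))
  (X Tp : Finset α) (φ : Finset α → α),
  (∀ C ∈ P, Chn C) → (∀ C ∈ Q, Chn C) → J ⊆ Q → X ⊆ S → Tp ⊆ T → (∀ x ∈ X, ∀ y ∈ Tp, x ≤ y) →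
  (∀ C ∈ J, φ C ∈ X) → (∀ C ∈ J, ∀ C' ∈ J, φ C = φ C' → C = C') →
  (∀ C ∈ J, ∀ x ∈ X, ∀ y ∈ C, φ C ≤ y → x ≤ y) →
  Tp.card + J.card = X.card → X.card ≤ (S \ X).card + (T \ Tp).card →
  Sch (X.card + (S \ X).card + (T \ Tp).card + P.card + (Q \ J).card) (DD S P) (DD T Q)

/-- A state: singles `S` and chains `P` of size at least two below, singles `T` and chains `Q` of
size at least two above; everything on each side is disjoint. -/
structure St {α : Type} [PartialOrder α] (S T : Finset α) (P Q : Finset (Finset α)) : Prop where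
  chP : ∀ C ∈ P, Chn C
  chQ : ∀ C ∈ Q, Chn C
  cP : ∀ C ∈ P, 2 ≤ C.card
  cQ : ∀ C ∈ Q, 2 ≤ C.card
  dP : ∀ C ∈ P, Disjoint C S
  dQ : ∀ C ∈ Q, Disjoint C T
  pP : ∀ C ∈ P, ∀ C' ∈ P, C ≠ C' → Disjoint C C'
  pQ : ∀ C ∈ Q, ∀ C' ∈ Q, C ≠ C' → Disjoint C C'

/-- No completely incomparable pair (chain below, chain above). -/
structure NN {α : Type} [PartialOrder α] (S T : Finset α) (P Q : Finset (Finset α)) : Prop where
  ss : ∀ x ∈ S, ∀ y ∈ T, x ≤ y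
  sq : ∀ x ∈ S, ∀ C ∈ Q, ∃ y ∈ C, x ≤ y
  pt : ∀ C ∈ P, ∀ y ∈ T, ∃ x ∈ C, x ≤ y
  pq : ∀ C ∈ P, ∀ C' ∈ Q, ∃ x ∈ C, ∃ y ∈ C', x ≤ y

/-- No pair of chains which becomes completely incomparable after removing one element of one of
them. -/
def NA {α : Type} [PartialOrder α] (P Q : Finset (Finset α)) : Prop :=
  ∀ C ∈ P, ∀ C' ∈ Q, (∀ y0 ∈ C', ∃ x ∈ C, ∃ y ∈ C', y ≠ y0 ∧ x ≤ y) ∧
    (∀ x0 ∈ C, ∃ x ∈ C, ∃ y ∈ C', x ≠ x0 ∧ x ≤ y)

/-- `x` is incomparable to all elements of `C'` but (at most) one. -/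
def AU {α : Type} [PartialOrder α] (x : α) (C' : Finset α) : Prop :=
  ∃ y0 ∈ C', ∀ y ∈ C', y ≠ y0 → ¬ x ≤ y

/-- `y` is incomparable to all elements of `C` but (at most) one. -/
def AD {α : Type} [PartialOrder α] (C : Finset α) (y : α) : Prop :=
  ∃ x0 ∈ C, ∀ x ∈ C, x ≠ x0 → ¬ x ≤ y

/-- ADIR: assembly with conversions. -/
def S_ADIR : Prop := ∀ (α : Type) [PartialOrder α] (S T : Finset α) (P Q Is J : Finset (Finset α))
  (ψ β φ : Finset α → α) (X : Finset α) (N e : ℕ),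
  St S T P Q → (∀ x ∈ S, ∀ y ∈ T, x ≤ y) →
  Is ⊆ P → (∀ C ∈ Is, ψ C ∈ T) → (∀ C ∈ Is, ∀ C' ∈ Is, ψ C = ψ C' → C = C') →
  (∀ C ∈ Is, β C ∈ C ∧ (∀ x ∈ C, x ≠ β C → ¬ x ≤ ψ C) ∧ ∀ y ∈ T, β C ≤ y) →
  J ⊆ Q → X ⊆ S ∪ Is.image β → X.card = e → (∀ C ∈ J, φ C ∈ X) →
  (∀ C ∈ J, ∀ C' ∈ J, φ C = φ C' → C = C') →
  (∀ C ∈ J, ∀ x ∈ X, ∀ y ∈ C, φ C ≤ y → x ≤ y) →
  J.card ≤ e → Is.card + e ≤ T.card + J.card → 3 * e ≤ S.card + T.card + J.card →
  N + e = S.card + T.card + P.card + Q.card →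
  Sch N (DD S P) (DD T Q)

/-- DIRA: direct case without conversions. -/
def S_DIRA : Prop := ∀ (α : Type) [PartialOrder α] (S T : Finset α) (P Q J : Finset (Finset α))
  (N e : ℕ), St S T P Q → NN S T P Q → J ⊆ Q → J.card ≤ e → e ≤ T.card + J.card →
  3 * e ≤ S.card + T.card + J.card →
  e + ((∑ C ∈ J, (C.card - 1)) - 1) ≤ S.card →
  N + e = S.card + T.card + P.card + Q.card → Sch N (DD S P) (DD T Q)

/-- DIRB: direction with conversions. -/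
def S_DIRB : Prop := ∀ (α : Type) [PartialOrder α] (S T : Finset α) (P Q J Is : Finset (Finset α))
  (ψ : Finset α → α) (N e : ℕ),
  St S T P Q → NN S T P Q → NA P Q → Is ⊆ P → (∀ C ∈ Is, ψ C ∈ T ∧ AD C (ψ C)) →
  (∀ C ∈ Is, ∀ C' ∈ Is, ψ C = ψ C' → C = C') →
  J ⊆ Q → J.card ≤ e → Is.card + e ≤ T.card + J.card → 3 * e ≤ S.card + T.card + J.card →
  N + e = S.card + T.card + P.card + Q.card →
  (e + ((∑ C ∈ J, (C.card - 1)) - 1) ≤ S.card + Is.card ∨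
    ∃ (T0 : Finset α) (Jc : Finset (Finset α)), T0 ⊆ S ∧
      (∀ x ∈ S, ∀ C ∈ J, AU x C → x ∈ T0 ∨ C ∈ Jc) ∧
      e + (T0.card + Jc.card + ∑ C ∈ J, (C.card - 2)) ≤ S.card + Is.card) →
  Sch N (DD S P) (DD T Q)

/-- DICH: the dichotomy. -/
def S_DICH : Prop := ∀ (α : Type) [PartialOrder α] (S T : Finset α) (P Q J I : Finset (Finset α))
  (N e j : ℕ), St S T P Q → NN S T P Q → NA P Q → J ⊆ Q → I ⊆ P → J.card = j → I.card = j →
  1 ≤ j → 3 * e = S.card + T.card + j → e < S.card + j → e < T.card + j →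
  (∑ C ∈ J, (C.card - 2)) + (∑ C ∈ I, (C.card - 2)) + j ≤ e →
  N + e = S.card + T.card + P.card + Q.card → Sch N (DD S P) (DD T Q)

/-- The excess number `b + c - N` (an integer). -/
def exc (N s t p q : ℤ) : ℤ := s + t + p + q - N

/-- The number of non-single participations needed (an integer). -/
def jj (N s t p q : ℤ) : ℤ := 3 * exc N s t p q - s - t

/-- The induction hypothesis of the main theorem of the combinatorial part. -/
structure Hyp {α : Type} [PartialOrder α] (N : ℤ) (S T : Finset α) (P Q : Finset (Finset α)) :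
    Prop where
  st : St S T P Q
  h1 : 0 ≤ N - S.card - P.card
  h2 : jj N S.card T.card P.card Q.card ≤ N - S.card - P.card
  h3 : 0 ≤ N - T.card - Q.card
  h4 : jj N S.card T.card P.card Q.card ≤ N - T.card - Q.card
  h5 : ∃ J ⊆ Q, ∃ I ⊆ P,
    (J.card : ℤ) = max (max (jj N S.card T.card P.card Q.card)
      (exc N S.card T.card P.card Q.card - T.card)) 0 ∧
    (I.card : ℤ) = max (max (jj N S.card T.card P.card Q.card)
      (exc N S.card T.card P.card Q.card - S.card)) 0 ∧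
    ((∑ C ∈ J, (C.card - 2) : ℕ) : ℤ) + ((∑ C ∈ I, (C.card - 2) : ℕ) : ℤ) ≤
      S.card + T.card - 2 * exc N S.card T.card P.card Q.card

/-- STEP0: removing a completely incomparable pair preserves the hypothesis. -/
def S_STEP0 : Prop := ∀ (α : Type) [PartialOrder α] (N : ℤ) (S T : Finset α)
  (P Q : Finset (Finset α)), Hyp N S T P Q →
  (∀ x ∈ S, ∀ y ∈ T, Hyp (N - 1) (S.erase x) (T.erase y) P Q) ∧
  (∀ x ∈ S, ∀ C ∈ Q, Hyp (N - 1) (S.erase x) T P (Q.erase C)) ∧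
  (∀ C ∈ P, ∀ y ∈ T, Hyp (N - 1) S (T.erase y) (P.erase C) Q) ∧
  (∀ C ∈ P, ∀ C' ∈ Q, Hyp (N - 1) S T (P.erase C) (Q.erase C'))

/-- STEP2: removing a pair of chains except one element preserves the hypothesis in the main
case. -/
def S_STEP2 : Prop := ∀ (α : Type) [PartialOrder α] (N : ℤ) (S T : Finset α)
  (P Q : Finset (Finset α)), Hyp N S T P Q →
  0 < jj N S.card T.card P.card Q.card →
  exc N S.card T.card P.card Q.card - S.card < jj N S.card T.card P.card Q.card →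
  exc N S.card T.card P.card Q.card - T.card < jj N S.card T.card P.card Q.card →
  (∀ C ∈ P, ∀ C' ∈ Q, ∀ y0 ∈ C', Hyp (N - 1) S (insert y0 T) (P.erase C) (Q.erase C')) ∧
  (∀ C ∈ P, ∀ C' ∈ Q, ∀ x0 ∈ C, Hyp (N - 1) (insert x0 S) T (P.erase C) (Q.erase C'))

/-- IND: the hypothesis gives a scheme. -/
def S_IND : Prop := ∀ (α : Type) [PartialOrder α] (N : ℕ) (S T : Finset α)
  (P Q : Finset (Finset α)), Hyp (N : ℤ) S T P Q → Sch N (DD S P) (DD T Q)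

/-- NUM: the numerical inequalities (Cauchy-Schwarz). -/
def S_NUM : Prop := ∀ (b c : ℕ → ℤ) (L : ℕ) (N : ℤ), 2 ≤ L → 0 ≤ N →
  (∀ k, 0 ≤ b k ∧ 0 ≤ c k) → (∀ k, b (k + 1) ≤ b k ∧ c (k + 1) ≤ c k) →
  ∑ k ∈ Finset.Icc 1 L, ((b k) ^ 2 + (c k) ^ 2) ≤ N ^ 2 →
  b 1 ≤ N ∧ c 1 ≤ N ∧
  2 * b 1 + 2 * c 1 + b 2 + c 2 - 3 * N ≤ N - b 1 ∧
  2 * b 1 + 2 * c 1 + b 2 + c 2 - 3 * N ≤ N - c 1 ∧
  2 * b 1 + 2 * c 1 + b 2 + c 2 - 3 * N ≤ c 2 ∧
  2 * b 1 + 2 * c 1 + b 2 + c 2 - 3 * N ≤ b 2 ∧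
  (∑ k ∈ Finset.Icc 3 L,
      max (max (max (2 * b 1 + 2 * c 1 + b 2 + c 2 - 3 * N) (b 1 + c 2 - N)) 0 - c 2 + c k) 0) +
    (∑ k ∈ Finset.Icc 3 L,
      max (max (max (2 * b 1 + 2 * c 1 + b 2 + c 2 - 3 * N) (c 1 + b 2 - N)) 0 - b 2 + b k) 0) ≤
    2 * N - b 1 - c 1 - b 2 - c 2

/-- SHORT: the `n` shortest chains. -/
def S_SHORT : Prop := ∀ (α : Type) (Q : Finset (Finset α)) (n L : ℕ),
  (∀ C ∈ Q, 2 ≤ C.card ∧ C.card ≤ L) → n ≤ Q.card →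
  ∃ J ⊆ Q, J.card = n ∧
    ∑ C ∈ J, (C.card - 2) ≤
      ∑ k ∈ Finset.Icc 3 L, ((n + (Q.filter (fun C => k ≤ C.card)).card) - Q.card)

/-- The sum of the squares of the profile of a family of chains. -/
def prof {α : Type} (F : Finset (Finset α)) : ℕ := ∑ C ∈ F, ∑ C' ∈ F, min C.card C'.card

/-- A partition of `D` into non-empty chains. -/
structure Part {α : Type} [PartialOrder α] (F : Finset (Finset α)) (D : Finset α) : Prop where
  ch : ∀ C ∈ F, Chn C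
  ne : ∀ C ∈ F, C.Nonempty
  dj : ∀ C ∈ F, ∀ C' ∈ F, C ≠ C' → Disjoint C C'
  un : F.biUnion id = D

/-- MAINM: chain partitions with small profile give a scheme. -/
def S_MAINM : Prop := ∀ (α : Type) [PartialOrder α] (D U : Finset α) (F G : Finset (Finset α))
  (N : ℕ), Part F D → Part G U → prof F + prof G ≤ N ^ 2 → Sch N D U

/-! ## Exchange and patterns -/

/-- Position of `y` in the chain `C`. -/
def pos {α : Type} [PartialOrder α] (C : Finset α) (y : α) : ℕ := (C.filter (fun z => z < y)).card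

/-- The sum of the squares of the sizes. -/
def sqs {α : Type} (F : Finset (Finset α)) : ℕ := ∑ C ∈ F, C.card ^ 2

/-- A chain partition of the whole poset maximising the sum of the squares of the sizes. -/
structure Best {α : Type} [Fintype α] [PartialOrder α] (F : Finset (Finset α)) : Prop where
  pt : Part F (Finset.univ : Finset α)
  mx : ∀ F' : Finset (Finset α), Part F' (Finset.univ : Finset α) → sqs F' ≤ sqs F

/-- The digraph on the chains of `F` of size `l` attached to the cut between the positions `a` and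
`a + 1`. -/
def Hs {α : Type} [PartialOrder α] (F : Finset (Finset α)) (l a : ℕ) (C C' : Finset α) : Prop :=
  C ∈ F ∧ C' ∈ F ∧ C.card = l ∧ C'.card = l ∧
    ∀ u ∈ C, ∀ w ∈ C', pos C u = a → pos C' w = a + 1 → u < w

/-- ROT: a rotation along a path, from Hall's theorem. -/
def S_ROT : Prop := ∀ (ι : Type) (s : Finset ι) (r : ι → ι → Prop) (a b : ι), a ∈ s → b ∈ s →
  (∀ i ∈ s, r i i) → Relation.ReflTransGen (fun i j => i ∈ s ∧ j ∈ s ∧ r i j) a b →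
  ∃ σ : ι → ι, (∀ i ∈ s, i ≠ b → σ i ∈ s ∧ r i (σ i) ∧ σ i ≠ a) ∧
    (∀ i ∈ s, ∀ j ∈ s, i ≠ b → j ≠ b → σ i = σ j → i = j)

/-- INS: no insertion at the bottom or at the top. -/
def S_INS : Prop := ∀ (α : Type) [Fintype α] [PartialOrder α] (F : Finset (Finset α)), Best F →
  ∀ C0 ∈ F, ∀ C ∈ F, C ≠ C0 → C0.card ≤ C.card → ∀ x ∈ C0,
    ¬ (∀ u ∈ C, x < u) ∧ ¬ (∀ u ∈ C, u < x)

/-- NOPATH: no closed rotation through an insertion. -/
def S_NOPATH : Prop := ∀ (α : Type) [Fintype α] [PartialOrder α] (F : Finset (Finset α)), Best F →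
  ∀ l a : ℕ, a + 1 < l → ∀ C0 ∈ F, C0.card ≤ l → ∀ x ∈ C0, ∀ C1 ∈ F, ∀ C2 ∈ F,
    C1.card = l → C2.card = l → ∀ u ∈ C1, ∀ w ∈ C2, pos C1 u = a → pos C2 w = a + 1 →
    u < x → x < w → ¬ Relation.ReflTransGen (Hs F l a) C2 C1

/-- EXCH: a chain partition maximising the sum of squares, and its rank and threshold functions. -/
def S_EXCH : Prop := ∀ (α : Type) [Fintype α] [PartialOrder α],
  ∃ (F : Finset (Finset α)) (ρ : Finset α → ℕ → ℕ) (θ : α → ℕ → ℕ → ℕ),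
    Part F (Finset.univ : Finset α) ∧ (∀ C a, ρ C a ≤ Fintype.card α) ∧
    (∀ x l a, θ x l a ≤ Fintype.card α + 1) ∧
    ∀ C1 ∈ F, ∀ C ∈ F, C ≠ C1 → C1.card ≤ C.card → ∀ x ∈ C1, ∀ y ∈ C,
      (pos C y + 1 = C.card ∨ θ x C.card (pos C y) ≤ ρ C (pos C y)) →
      (∀ z ∈ C, z < y → ρ C (pos C z) < θ x C.card (pos C z)) → Inc x y

/-- The family `Pi` of pattern sets has the property needed for posets of height at most `K`. -/
def PatProp (K t : ℕ) (Pi : (r : ℕ) → Finset (Finset (Fin r × Fin r))) : Prop :=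
  ∀ r : ℕ, (Pi r).card ≤ (r + 2) ^ (t * r) ∧ (∀ π ∈ Pi r, ∀ e ∈ π, e.1 < e.2) ∧
    ∀ (α : Type) [PartialOrder α] (f : Fin r → α), Function.Injective f →
      (∀ C : Finset α, C ⊆ Finset.univ.image f → Chn C → C.card ≤ K) →
      ∃ F : Finset (Finset α), Part F (Finset.univ.image f) ∧
        ∃ π ∈ Pi r, (∀ e ∈ π, Inc (f e.1) (f e.2)) ∧ prof F ≤ 2 * π.card + r

/-- PAT: families of patterns exist. -/
def S_PAT : Prop := ∀ K : ℕ, ∃ (t : ℕ) (Pi : (r : ℕ) → Finset (Finset (Fin r × Fin r))),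
  PatProp K t Pi

/-- BLOCK: the deterministic theorem for one block. -/
def S_BLOCK : Prop := ∀ (K t : ℕ) (Pi : (r : ℕ) → Finset (Finset (Fin r × Fin r))),
  PatProp K t Pi →
  ∀ (α : Type) [Fintype α] [PartialOrder α] (g N0 : ℕ), 1 ≤ g →
    (¬ ∃ A : Fin K → Finset α, (∀ i, Anti (A i) ∧ (A i).card = g) ∧
      ∀ i j, i ≠ j → Disjoint (A i) (A j)) →
    Rlz (fun x y : α => x ≤ y) (N0 + 2) ∨
    ∃ (r1 r2 : ℕ) (fA : Fin (N0 + 1) → α) (f1 : Fin r1 → α) (f2 : Fin r2 → α),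
      r1 ≤ K * g ∧ r2 ≤ K * g ∧
      Function.Injective fA ∧ Function.Injective f1 ∧ Function.Injective f2 ∧
      (∀ i j, fA i ≠ f1 j) ∧ (∀ i j, fA i ≠ f2 j) ∧ (∀ i j, f1 i ≠ f2 j) ∧
      (∀ i j, i ≠ j → Inc (fA i) (fA j)) ∧
      ∃ π1 ∈ Pi r1, ∃ π2 ∈ Pi r2,
        (∀ e ∈ π1, Inc (f1 e.1) (f1 e.2)) ∧ (∀ e ∈ π2, Inc (f2 e.1) (f2 e.2)) ∧
        ∀ N1 : ℕ, 2 * π1.card + r1 + (2 * π2.card + r2) ≤ N1 ^ 2 →
          Rlz (fun x y : α => x ≤ y) (N1 + 2 * g + 2)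

/-! ## Graph part -/

/-- The possible edges. -/
def Om (n : ℕ) : Finset (Fin n × Fin n) := Finset.univ.filter (fun e => e.1 < e.2)

/-- The order generated by the edge set `E`. -/
def gle {n : ℕ} (E : Finset (Fin n × Fin n)) (x y : Fin n) : Prop :=
  Relation.ReflTransGen (fun a b => (a, b) ∈ E) x y

/-- `z` is comparable to everything. -/
def Post {n : ℕ} (E : Finset (Fin n × Fin n)) (z : Fin n) : Prop := ∀ x, gle E x z ∨ gle E z x

/-- Every window of length `m` contains a post. -/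
def Gap {n : ℕ} (m : ℕ) (E : Finset (Fin n × Fin n)) : Prop :=
  ∀ v : ℕ, v + m ≤ n → ∃ z : Fin n, v ≤ (z : ℕ) ∧ (z : ℕ) < v + m ∧ Post E z

/-- The pattern `π` occurs among the non-edges of `E` inside a window of length `m`. -/
def Occ {n : ℕ} (m r : ℕ) (π : Finset (Fin r × Fin r)) (E : Finset (Fin n × Fin n)) : Prop :=
  ∃ (v : ℕ) (F : Fin r → Fin n), Function.Injective F ∧
    (∀ i, v ≤ (F i : ℕ) ∧ (F i : ℕ) < v + m) ∧
    ∀ e ∈ π, (F e.1, F e.2) ∉ E ∧ (F e.2, F e.1) ∉ E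

/-- OSUM: ordinal sum over the blocks between posts. -/
def S_OSUM : Prop := ∀ (n m k : ℕ) (E : Finset (Fin n × Fin n)), E ⊆ Om n → 1 ≤ m → Gap m E →
  1 ≤ k →
  (∀ B : Finset (Fin n), (∃ v : ℕ, ∀ x ∈ B, v ≤ (x : ℕ) ∧ (x : ℕ) < v + 2 * m) →
    Rlz (fun x y : {x : Fin n // x ∈ B} => gle E x.1 y.1) k) →
  Rlz (gle E) k

/-- `K` groups of `g` elements, all pairs inside the groups. -/
def pat1 (K g : ℕ) : Finset (Fin (K * g) × Fin (K * g)) :=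
  Finset.univ.filter (fun e => e.1 < e.2 ∧ (e.1 : ℕ) / g = (e.2 : ℕ) / g)

/-- Combined pattern: a complete graph on the first `a` elements, then `π1`, then `π2`. -/
def comb (a r1 r2 : ℕ) (π1 : Finset (Fin r1 × Fin r1)) (π2 : Finset (Fin r2 × Fin r2)) :
    Finset (Fin (a + r1 + r2) × Fin (a + r1 + r2)) :=
  Finset.univ.filter (fun e => e.1 < e.2 ∧ ((e.2 : ℕ) < a ∨
    (∃ f ∈ π1, (e.1 : ℕ) = a + (f.1 : ℕ) ∧ (e.2 : ℕ) = a + (f.2 : ℕ)) ∨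
    (∃ f ∈ π2, (e.1 : ℕ) = a + r1 + (f.1 : ℕ) ∧ (e.2 : ℕ) = a + r1 + (f.2 : ℕ))))

/-- PCARD: the sizes of the two kinds of patterns. -/
def S_PCARD : Prop := (∀ K g : ℕ, K * (g * (g - 1)) ≤ 2 * (pat1 K g).card) ∧
  ∀ (a r1 r2 : ℕ) (π1 : Finset (Fin r1 × Fin r1)) (π2 : Finset (Fin r2 × Fin r2)),
    (∀ e ∈ π1, e.1 < e.2) → (∀ e ∈ π2, e.1 < e.2) →
    2 * (comb a r1 r2 π1 π2).card = a * (a - 1) + 2 * π1.card + 2 * π2.card

/-- Occurrence of a pattern of the second kind with at least `T2` pairs. -/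
def Occ2 {n : ℕ} (K : ℕ) (Pi : (r : ℕ) → Finset (Finset (Fin r × Fin r))) (m g N0 T2 : ℕ)
    (E : Finset (Fin n × Fin n)) : Prop :=
  ∃ r1 ≤ K * g, ∃ r2 ≤ K * g, ∃ π1 ∈ Pi r1, ∃ π2 ∈ Pi r2,
    T2 ≤ (comb (N0 + 1) r1 r2 π1 π2).card ∧
    Occ m (N0 + 1 + r1 + r2) (comb (N0 + 1) r1 r2 π1 π2) E

/-- DET: the deterministic theorem for graphs. -/
def S_DET : Prop := ∀ (K t : ℕ) (Pi : (r : ℕ) → Finset (Finset (Fin r × Fin r))),
  PatProp K t Pi →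
  ∀ (n m g N0 N1 T2 k : ℕ) (E : Finset (Fin n × Fin n)), E ⊆ Om n → 1 ≤ m → Gap m E → 1 ≤ g →
    ¬ Occ (2 * m) (K * g) (pat1 K g) E → ¬ Occ2 K Pi (2 * m) g N0 T2 E →
    2 * T2 + 2 * (K * g) ≤ N1 ^ 2 + (N0 + 1) * N0 →
    N0 + 2 ≤ k → N1 + 2 * g + 2 ≤ k → Rlz (gle E) k

/-! ## Probability part -/

/-- The probability of the event `Qe` in the random graph. -/
def Pr (p : ℝ) (n : ℕ) (Qe : Finset (Fin n × Fin n) → Prop) : ℝ :=
  ∑ E ∈ (Om n).powerset.filter Qe, p ^ E.card * (1 - p) ^ ((Om n).card - E.card)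

/-- PBAS: basic facts on the probability. -/
def S_PBAS : Prop := ∀ (p : ℝ) (n : ℕ), 0 < p → p < 1 →
  Pr p n (fun _ => True) = 1 ∧
  (∀ A : Finset (Fin n × Fin n) → Prop, 0 ≤ Pr p n A) ∧
  (∀ A B : Finset (Fin n × Fin n) → Prop, (∀ E, E ⊆ Om n → A E → B E) → Pr p n A ≤ Pr p n B) ∧
  (∀ A B : Finset (Fin n × Fin n) → Prop, Pr p n (fun E => A E ∨ B E) ≤ Pr p n A + Pr p n B) ∧
  (∀ A : Finset (Fin n × Fin n) → Prop, Pr p n (fun E => ¬ A E) = 1 - Pr p n A) ∧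
  (∀ (ι : Type) (s : Finset ι) (A : ι → Finset (Fin n × Fin n) → Prop),
    Pr p n (fun E => ∃ i ∈ s, A i E) ≤ ∑ i ∈ s, Pr p n (A i))

/-- PIND: independence of events depending on disjoint sets of edges. -/
def S_PIND : Prop := ∀ (p : ℝ) (n : ℕ), 0 < p → p < 1 →
  (∀ (S T : Finset (Fin n × Fin n)) (A B : Finset (Fin n × Fin n) → Prop), Disjoint S T →
    Pr p n (fun E => A (E ∩ S) ∧ B (E ∩ T)) =
      Pr p n (fun E => A (E ∩ S)) * Pr p n (fun E => B (E ∩ T))) ∧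
  (∀ (ι : Type) (s : Finset ι) (S : ι → Finset (Fin n × Fin n))
    (A : ι → Finset (Fin n × Fin n) → Prop), (∀ i ∈ s, ∀ j ∈ s, i ≠ j → Disjoint (S i) (S j)) →
    Pr p n (fun E => ∀ i ∈ s, A i (E ∩ S i)) = ∏ i ∈ s, Pr p n (fun E => A i (E ∩ S i))) ∧
  (∀ S ⊆ Om n, Pr p n (fun E => E ∩ S = ∅) = (1 - p) ^ S.card)

/-- UB: the union bound for patterns. -/
def S_UB : Prop := ∀ (p : ℝ) (n m r M : ℕ) (Pa : Finset (Finset (Fin r × Fin r))), 0 < p → p < 1 →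
  1 ≤ M → (∀ π ∈ Pa, M ≤ π.card ∧ ∀ e ∈ π, e.1 < e.2) →
  Pr p n (fun E => ∃ π ∈ Pa, Occ m r π E) ≤ n * (m : ℝ) ^ r * Pa.card * (1 - p) ^ M

/-- `v` is a local post with radius `L`. -/
def LPost {n : ℕ} (L : ℕ) (E : Finset (Fin n × Fin n)) (v : ℕ) : Prop :=
  (∀ k, 1 ≤ k → k ≤ L → ∀ w : Fin n, (w : ℕ) = v + k → ∃ u : Fin n, v ≤ (u : ℕ) ∧ u < w ∧
    (u, w) ∈ E) ∧
  (∀ k, 1 ≤ k → k ≤ L → ∀ w : Fin n, (w : ℕ) + k = v → ∃ u : Fin n, (u : ℕ) ≤ v ∧ w < u ∧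
    (w, u) ∈ E)

/-- Far edges: every element at distance more than `L` is joined to the interval. -/
def Far {n : ℕ} (L : ℕ) (E : Finset (Fin n × Fin n)) : Prop :=
  (∀ v w : Fin n, (v : ℕ) + L < w → ∃ u : Fin n, v ≤ u ∧ u < w ∧ (u, w) ∈ E) ∧
  (∀ w v : Fin n, (w : ℕ) + L < v → ∃ u : Fin n, u ≤ v ∧ w < u ∧ (w, u) ∈ E)

/-- LPG: local posts are posts if the far edges are present. -/
def S_LPG : Prop := ∀ (n L : ℕ) (E : Finset (Fin n × Fin n)) (z : Fin n), E ⊆ Om n →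
  Far L E → LPost L E (z : ℕ) → Post E z

/-- FARP: the far edges are present with high probability. -/
def S_FARP : Prop := ∀ (p : ℝ) (n L : ℕ), 0 < p → p < 1 →
  Pr p n (fun E => ¬ Far L E) ≤ 2 * (n : ℝ) ^ 2 * (1 - p) ^ L

/-- LPP: a local post has probability bounded below. -/
def S_LPP : Prop := ∀ (p : ℝ), 0 < p → p < 1 → ∃ κ : ℝ, 0 < κ ∧ κ ≤ 1 ∧ ∀ (n L v : ℕ),
  v < n → κ ≤ Pr p n (fun E => LPost L E v)

/-- WIN: a window of length `R * (2 * L + 1)` contains a local post. -/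
def S_WIN : Prop := ∀ (p κ : ℝ), 0 < p → p < 1 → 0 < κ → κ ≤ 1 →
  (∀ (n L v : ℕ), v < n → κ ≤ Pr p n (fun E => LPost L E v)) →
  ∀ (n L R v : ℕ), v + R * (2 * L + 1) ≤ n → Pr p n (fun E => ∀ i < R, ¬ LPost L E (v + i * (2 * L + 1) + L)) ≤ (1 - κ) ^ R

/-- POST: with high probability all gaps between posts are at most `C (log n)^2`. -/
def S_POST : Prop := ∀ (p : ℝ), 0 < p → p < 1 → ∃ c : ℕ, 1 ≤ c ∧
  Tendsto (fun n : ℕ => Pr p n (fun E => Gap (c * (⌈Real.log n⌉₊ + 1) ^ 2) E)) atTop (𝓝 1)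

/-- ASYM: the asymptotic estimate of the union bounds. -/
def S_ASYM : Prop := ∀ (p δ : ℝ) (A c : ℕ), 0 < p → p < 1 → 0 < δ →
  Tendsto (fun n : ℕ => (n : ℝ) *
    (((2 * (c * (⌈Real.log n⌉₊ + 1) ^ 2) : ℕ) : ℝ) +
      A * (⌈Real.sqrt (Real.log n / Real.log (1 / (1 - p)))⌉₊ + 1)) ^
      (A * (⌈Real.sqrt (Real.log n / Real.log (1 / (1 - p)))⌉₊ + 1)) *
    (1 - p) ^ ⌈(1 + δ) * (Real.log n / Real.log (1 / (1 - p)))⌉₊) atTop (𝓝 0)

/-- The frozen statement. -/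
def S_GOAL : Prop :=
  ∀ p : ℝ, 0 < p → p < 1 → ∀ ε : ℝ, 0 < ε →
    Tendsto (fun n : ℕ => Pr p n (fun E => ∃ k : ℕ,
      (k : ℝ) ≤ (1 + ε) * Real.sqrt (Real.log (n : ℝ) / Real.log (1 / (1 - p))) ∧
      Rlz (gle E) k)) atTop (𝓝 1)

end

end Pool.Agent.W830.RD
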