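import Pool.Agent.H3RD.W830.RD.Stm2

/-!
# Project RD: final form of the elimination
-/

set_option autoImplicit false

namespace Pool.Agent.W830.RD.Elim2

open Finset
open Pool.Agent.W830.RD
open scoped Classical

theorem main (h : S_ROUNDS2) : S_ELIM2 := by
  intro α _ _ S J k l hch hl hJk hk
  obtain ⟨E, hES, hEc, φ0, hφ, hinj⟩ := h α S J l hch hl
  have hR : k ≤ (S \ E).card := by
    rw [Finset.card_sdiff_of_subset hES]
    omega
  set R := S \ E with hRdef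
  obtain ⟨J1, hJ1m⟩ : ∃ J1 : Finset (Finset α), ∀ C, C ∈ J1 ↔
      (C ∈ J ∧ ¬ ∀ x ∈ R, ∀ y ∈ C, x ≤ y) :=
    ⟨J.filter (fun C => ¬ ∀ x ∈ R, ∀ y ∈ C, x ≤ y), fun C => Finset.mem_filter⟩
  have hJ1 : ∀ C ∈ J1, φ0 C ∈ R ∧ ∀ x ∈ R, ∀ y ∈ C, φ0 C ≤ y → x ≤ y := by
    intro C hC
    rw [hJ1m] at hC
    rcases hφ C hC.1 with h1 | h1
    · exact absurd h1 hC.2
    · exact h1
  have hJ1i : Set.InjOn φ0 (J1 : Set (Finset α)) := by
    intro C hC C' hC' he
    have hC1 := (hJ1m C).1 (Finset.mem_coe.1 hC)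
    have hC2 := (hJ1m C').1 (Finset.mem_coe.1 hC')
    exact hinj C hC1.1 C' hC2.1 hC1.2 hC2.2 he
  have hJ1J : J1 ⊆ J := fun C hC => ((hJ1m C).1 hC).1
  have hc1 : (J1.image φ0).card = J1.card := Finset.card_image_of_injOn hJ1i
  have hsub : J1.image φ0 ⊆ R := by
    intro x hx
    obtain ⟨C, hC, rfl⟩ := Finset.mem_image.1 hx
    exact (hJ1 C hC).1
  obtain ⟨X, hX1, hX2, hX3⟩ := Finset.exists_subsuperset_card_eq hsub
    (by rw [hc1]; exact (Finset.card_le_card hJ1J).trans hJk) hR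
  have hcX : (X \ J1.image φ0).card = k - J1.card := by
    rw [Finset.card_sdiff_of_subset hX1, hX3, hc1]
  have hcJ : (J \ J1).card = J.card - J1.card := Finset.card_sdiff_of_subset hJ1J
  obtain ⟨X2, hX2s, hX2c⟩ := Finset.exists_subset_card_eq (s := X \ J1.image φ0)
    (n := (J \ J1).card) (by rw [hcX, hcJ]; omega)
  let e : {x // x ∈ J \ J1} ≃ {x // x ∈ X2} := Finset.equivOfCardEq hX2c.symm
  let φ : Finset α → α := fun C => if hC : C ∈ J \ J1 then (e ⟨C, hC⟩).1 else φ0 C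
  have hφ2 : ∀ C, (hC : C ∈ J \ J1) → φ C ∈ X \ J1.image φ0 := by
    intro C hC
    have : φ C = (e ⟨C, hC⟩).1 := dif_pos hC
    rw [this]
    exact hX2s (e ⟨C, hC⟩).2
  have hφ1 : ∀ C ∈ J1, φ C = φ0 C := by
    intro C hC
    exact dif_neg (fun h' => (Finset.mem_sdiff.1 h').2 hC)
  have hφ1' : ∀ C ∈ J1, φ C ∈ J1.image φ0 := by
    intro C hC
    rw [hφ1 C hC]
    exact Finset.mem_image_of_mem _ hC
  refine ⟨X, hX2.trans Finset.sdiff_subset, hX3, φ, ?_, ?_, ?_⟩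
  · intro C hC
    by_cases h1 : C ∈ J1
    · exact hX1 (hφ1' C h1)
    · exact (Finset.mem_sdiff.1 (hφ2 C (Finset.mem_sdiff.2 ⟨hC, h1⟩))).1
  · intro C hC C' hC' he
    by_cases h1 : C ∈ J1
    · by_cases h2 : C' ∈ J1
      · rw [hφ1 C h1, hφ1 C' h2] at he
        exact hJ1i (Finset.mem_coe.2 h1) (Finset.mem_coe.2 h2) he
      · have := (Finset.mem_sdiff.1 (hφ2 C' (Finset.mem_sdiff.2 ⟨hC', h2⟩))).2
        exact absurd (he ▸ hφ1' C h1) this
    · have h1' := Finset.mem_sdiff.2 ⟨hC, h1⟩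
      by_cases h2 : C' ∈ J1
      · have := (Finset.mem_sdiff.1 (hφ2 C h1')).2
        exact absurd (he.symm ▸ hφ1' C' h2) this
      · have h2' := Finset.mem_sdiff.2 ⟨hC', h2⟩
        have e1 : φ C = (e ⟨C, h1'⟩).1 := dif_pos h1'
        have e2 : φ C' = (e ⟨C', h2'⟩).1 := dif_pos h2'
        rw [e1, e2] at he
        have := e.injective (Subtype.ext he)
        exact congrArg Subtype.val this
  · intro C hC x hx y hy hle
    by_cases h1 : C ∈ J1
    · rw [hφ1 C h1] at hle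
      exact (hJ1 C h1).2 x (hX2 hx) y hy hle
    · have : ∀ x ∈ R, ∀ y ∈ C, x ≤ y := by
        by_contra hcon
        exact h1 ((hJ1m C).2 ⟨hC, hcon⟩)
      exact this x (hX2 hx) y hy

end Pool.Agent.W830.RD.Elim2
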