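import Pool.Agent.H3RD.W830.RD.Stm2
import Pool.Agent.H3RD.W830.RD.Dira2
import Pool.Agent.H3RD.W830.RD.Dirb2
import Pool.Agent.H3RD.W830.RD.Dich2
import Pool.Agent.H3RD.W300.RD.Pair
import Pool.Agent.H3RD.W880.RD.Slots
import Pool.Agent.H3RD.W878.RD.Sadd
import Pool.Agent.H3RD.W925.RD.Konig
import Pool.Agent.H3RD.W764.RD.Rounds
import Pool.Agent.H3RD.W589.RD.ASM
import Pool.Agent.H3RD.W335.RD.Adir
import Pool.Agent.H3RD.W976.RD.Step0
import Pool.Agent.H3RD.W436.RD.Step2
import Pool.Agent.H3RD.W490.RD.Ind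
import Pool.Agent.H3RD.W683.RD.Num
import Pool.Agent.H3RD.W400.RD.Short
import Pool.Agent.H3RD.W202.RD.MAINM
import Pool.Agent.H3RD.W61.RD.ROT
import Pool.Agent.H3RD.W685.RD.Ins
import Pool.Agent.H3RD.W503.RD.NoPath
import Pool.Agent.H3RD.W308.RD.Exch
import Pool.Agent.H3RD.W557.RD.Pat
import Pool.Agent.H3RD.W371.RD.Block
import Pool.Agent.H3RD.W348.RD.Osum
import Pool.Agent.H3RD.W397.RD.PCard
import Pool.Agent.H3RD.W657.RD.PBas
import Pool.Agent.H3RD.W571.RD.Pind
import Pool.Agent.H3RD.W459.RD.UB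
import Pool.Agent.H3RD.W440.RD.LPG
import Pool.Agent.H3RD.W191.RD.Farp
import Pool.Agent.H3RD.W918.RD.LPP
import Pool.Agent.H3RD.W701.RD.Win
import Pool.Agent.H3RD.W32.RD.Post
import Pool.Agent.H3RD.W298.RD.Asym

/-!
# Project RD: gluing
-/

set_option autoImplicit false

namespace Pool.Agent.W830.RD.Glue

open Finset Filter Topology
open Pool.Agent.W830.RD
open scoped Classical

theorem pair : S_PAIR := Pool.Agent.W300.RD.Pair.main
theorem slots : S_SLOTS := Pool.Agent.W880.RD.Slots.main pair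
theorem sadd : S_SADD := Pool.Agent.W878.RD.Sadd.sadd
theorem dual : S_DUAL := Pool.Agent.W878.RD.Sadd.dual
theorem konig : S_KONIG2 := Pool.Agent.W925.RD.Konig.main
theorem rounds : S_ROUNDS2 := Pool.Agent.W764.RD.Rounds.main
theorem asm : S_ASM := Pool.Agent.W589.RD.ASM.main
theorem adir : S_ADIR := Pool.Agent.W335.RD.Adir.main asm sadd
theorem dira (hE : S_ELIM2) : S_DIRA := Pool.Agent.W830.RD.Dira2.main hE adir
theorem dirb (hE : S_ELIM2) : S_DIRB := Pool.Agent.W830.RD.Dirb2.main hE adir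
theorem dich (hE : S_ELIM2) : S_DICH := Pool.Agent.W830.RD.Dich2.main konig (dirb hE) dual
theorem step0 : S_STEP0 := Pool.Agent.W976.RD.Step0.main
theorem step2 : S_STEP2 := Pool.Agent.W436.RD.Step2.main
theorem ind (hE : S_ELIM2) : S_IND :=
  Pool.Agent.W490.RD.Ind.main step0 step2 sadd dual asm (dira hE) (dich hE)
theorem num : S_NUM := Pool.Agent.W683.RD.Num.main
theorem short : S_SHORT := Pool.Agent.W400.RD.Short.main
theorem mainm (hE : S_ELIM2) : S_MAINM := Pool.Agent.W202.RD.MAINM.main (ind hE) num short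
theorem rot : S_ROT := Pool.Agent.W61.RD.ROT.main
theorem ins : S_INS := Pool.Agent.W685.RD.Ins.main
theorem nopath : S_NOPATH := Pool.Agent.W503.RD.NoPath.main rot
theorem exch : S_EXCH := Pool.Agent.W308.RD.Exch.main ins nopath
theorem pat : S_PAT := Pool.Agent.W557.RD.Pat.main exch
theorem block (hE : S_ELIM2) : S_BLOCK := Pool.Agent.W371.RD.Block.main (mainm hE) slots sadd
theorem osum : S_OSUM := Pool.Agent.W348.RD.Osum.main
theorem pcard : S_PCARD := Pool.Agent.W397.RD.PCard.main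
theorem pbas : S_PBAS := Pool.Agent.W657.RD.PBas.main
theorem pind : S_PIND := Pool.Agent.W571.RD.Pind.main
theorem ub : S_UB := Pool.Agent.W459.RD.UB.main pbas pind
theorem lpg : S_LPG := Pool.Agent.W440.RD.LPG.main
theorem farp : S_FARP := Pool.Agent.W191.RD.Farp.main pbas pind
theorem lpp : S_LPP := Pool.Agent.W918.RD.LPP.main pbas pind
theorem win : S_WIN := Pool.Agent.W701.RD.Win.main pbas pind
theorem post : S_POST := Pool.Agent.W32.RD.Post.main pbas lpg farp lpp win
theorem asym : S_ASYM := Pool.Agent.W298.RD.Asym.main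

end Pool.Agent.W830.RD.Glue
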